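import Pool.Agent.H586.AF.A

/-! Positivity, mass and second moment of the heat kernel of `ℤ / 2L`. -/

set_option autoImplicit false

open Finset

namespace Pool.Agent.H161.AF

open Pool.Agent.H586.AF

/-- sums of cosines over a period -/
theorem sumcos {L : ℕ} (hL : 0 < L) (k : ℤ) (hk : ¬ (2 * (L : ℤ)) ∣ k) (α : ℝ) :
    ∑ n ∈ Finset.range (2 * L), Real.cos (Real.pi * k * n / L + α) = 0 := by
  have hL' : (L : ℝ) ≠ 0 := by positivity
  set θ : ℝ := Real.pi * k / L with hθ
  have h1 : ∀ n : ℕ, Real.cos (Real.pi * k * n / L + α) * (2 * Real.sin (θ / 2)) =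
      Real.sin (θ * ((n + 1 : ℕ) : ℝ) - θ / 2 + α) - Real.sin (θ * (n : ℝ) - θ / 2 + α) := by
    intro n
    have e1 : Real.pi * k * n / L + α = θ * n + α := by
      rw [hθ]
      ring
    have e2 : θ * ((n + 1 : ℕ) : ℝ) - θ / 2 + α = (θ * n + α) + θ / 2 := by
      push_cast
      ring
    have e3 : θ * (n : ℝ) - θ / 2 + α = (θ * n + α) - θ / 2 := by ring
    rw [e1, e2, e3, Real.sin_add, Real.sin_sub]
    ring
  have h2 : (∑ n ∈ Finset.range (2 * L), Real.cos (Real.pi * k * n / L + α)) *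
      (2 * Real.sin (θ / 2)) = 0 := by
    rw [Finset.sum_mul, Finset.sum_congr rfl (fun n _ => h1 n), Finset.sum_range_sub
      (fun n : ℕ => Real.sin (θ * (n : ℝ) - θ / 2 + α))]
    have e4 : θ * ((2 * L : ℕ) : ℝ) - θ / 2 + α = (-(θ / 2) + α) + (k : ℤ) * (2 * Real.pi) := by
      rw [hθ]
      push_cast
      field_simp
      ring
    have e5 : θ * ((0 : ℕ) : ℝ) - θ / 2 + α = -(θ / 2) + α := by
      push_cast
      ring
    rw [e4, e5, Real.sin_add_int_mul_two_pi, sub_self]
  have h3 : Real.sin (θ / 2) ≠ 0 := by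
    intro h
    rw [Real.sin_eq_zero_iff] at h
    obtain ⟨n, hn⟩ := h
    apply hk
    refine ⟨n, ?_⟩
    rw [hθ] at hn
    have h4 : (n : ℝ) * (2 * L) = k := by
      field_simp at hn
      linarith
    have h6 : n * (2 * (L : ℤ)) = k := by exact_mod_cast h4
    rw [← h6]
    ring
  rcases mul_eq_zero.1 h2 with h | h
  · exact h
  · exact absurd ((mul_eq_zero.1 h).resolve_left two_ne_zero) h3

/-- from the symmetric interval to the range -/
theorem sum_Ico {L : ℕ} (g : ℤ → ℝ) :
    ∑ z ∈ Finset.Ico (-(L : ℤ)) L, g z = ∑ n ∈ Finset.range (2 * L), g ((n : ℤ) - L) := by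
  symm
  refine Finset.sum_nbij' (fun n => (n : ℤ) - L) (fun z => (z + L).toNat) ?_ ?_ ?_ ?_ ?_
  · intro n hn
    rw [Finset.mem_range] at hn
    rw [Finset.mem_Ico]
    constructor <;> omega
  · intro z hz
    rw [Finset.mem_Ico] at hz
    rw [Finset.mem_range]
    omega
  · intro n _
    show (((n : ℤ) - L) + L).toNat = n
    omega
  · intro z hz
    rw [Finset.mem_Ico] at hz
    show (((z + L).toNat : ℕ) : ℤ) - L = z
    omega
  · intro n _
    rfl

theorem sumIcoCos {L : ℕ} (hL : 0 < L) (k : ℤ) :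
    ∑ z ∈ Finset.Ico (-(L : ℤ)) L, Real.cos (Real.pi * k / L * z) =
      if (2 * (L : ℤ)) ∣ k then 2 * (L : ℝ) else 0 := by
  have hL' : (L : ℝ) ≠ 0 := by positivity
  split_ifs with h
  · obtain ⟨m, rfl⟩ := h
    have h1 : ∀ z : ℤ, Real.cos (Real.pi * ((2 * (L : ℤ) * m : ℤ) : ℝ) / L * z) = 1 := by
      intro z
      have e : Real.pi * ((2 * (L : ℤ) * m : ℤ) : ℝ) / L * z = ((m * z : ℤ) : ℝ) * (2 * Real.pi) := by
        push_cast
        field_simp
      rw [e, Real.cos_int_mul_two_pi]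
    rw [Finset.sum_congr rfl (fun z _ => h1 z), Finset.sum_const, Int.card_Ico, nsmul_eq_mul, mul_one]
    have : ((L : ℤ) - (-(L : ℤ))).toNat = 2 * L := by omega
    rw [this]
    push_cast
    ring
  · rw [sum_Ico]
    have h1 := sumcos hL k h (-(Real.pi * k))
    rw [← h1]
    refine Finset.sum_congr rfl fun n _ => ?_
    congr 1
    push_cast
    field_simp
    ring

theorem sumRangeCos {L : ℕ} (hL : 0 < L) (z : ℤ) :
    (1 / (2 * (L : ℝ))) * ∑ n ∈ Finset.range (2 * L), Real.cos (Real.pi * n / L * z) =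
      if (2 * (L : ℤ)) ∣ z then 1 else 0 := by
  have hL' : (L : ℝ) ≠ 0 := by positivity
  split_ifs with h
  · obtain ⟨m, rfl⟩ := h
    have h1 : ∀ n : ℕ, Real.cos (Real.pi * n / L * ((2 * (L : ℤ) * m : ℤ) : ℝ)) = 1 := by
      intro n
      have e : Real.pi * n / L * ((2 * (L : ℤ) * m : ℤ) : ℝ) = ((m * n : ℤ) : ℝ) * (2 * Real.pi) := by
        push_cast
        field_simp
      rw [e, Real.cos_int_mul_two_pi]
    rw [Finset.sum_congr rfl (fun n _ => h1 n), Finset.sum_const, Finset.card_range, nsmul_eq_mul, mul_one]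
    push_cast
    field_simp
  · have h1 := sumcos hL z h 0
    have h2 : ∑ n ∈ Finset.range (2 * L), Real.cos (Real.pi * n / L * z) = 0 := by
      rw [← h1]
      refine Finset.sum_congr rfl fun n _ => ?_
      congr 1
      ring
    rw [h2, mul_zero]

/-- the moments -/
noncomputable def uu (L m : ℕ) (z : ℤ) : ℝ :=
  (1 / (2 * (L : ℝ))) * ∑ n ∈ Finset.range (2 * L),
    (2 * Real.cos (Real.pi * n / L)) ^ m * Real.cos (Real.pi * n / L * z)

theorem uu_succ (L m : ℕ) (z : ℤ) : uu L (m + 1) z = uu L m (z + 1) + uu L m (z - 1) := by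
  unfold uu
  rw [← mul_add, ← Finset.sum_add_distrib]
  congr 1
  refine Finset.sum_congr rfl fun n _ => ?_
  have e1 : Real.pi * n / L * ((z + 1 : ℤ) : ℝ) = Real.pi * n / L * z + Real.pi * n / L := by
    push_cast
    ring
  have e2 : Real.pi * n / L * ((z - 1 : ℤ) : ℝ) = Real.pi * n / L * z - Real.pi * n / L := by
    push_cast
    ring
  rw [e1, e2, Real.cos_add, Real.cos_sub, pow_succ]
  ring

theorem uu_nonneg {L : ℕ} (hL : 0 < L) (m : ℕ) : ∀ z : ℤ, 0 ≤ uu L m z := by
  induction m with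
  | zero =>
    intro z
    have h := sumRangeCos hL z
    unfold uu
    simp only [pow_zero, one_mul]
    rw [h]
    split_ifs
    · exact zero_le_one
    · exact le_rfl
  | succ m ih =>
    intro z
    rw [uu_succ]
    exact add_nonneg (ih _) (ih _)

theorem rr_nonneg {L : ℕ} (hL : 0 < L) {t : ℝ} (ht : 0 ≤ t) (z : ℤ) : 0 ≤ rr L t z := by
  have h1 : ∀ n : ℕ, HasSum (fun m : ℕ => t ^ m / (m.factorial : ℝ) *
      ((2 * Real.cos (Real.pi * n / L)) ^ m * Real.cos (Real.pi * n / L * z)))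
      (Real.exp (t * (2 * Real.cos (Real.pi * n / L))) * Real.cos (Real.pi * n / L * z)) := by
    intro n
    have h2 := (NormedSpace.expSeries_div_hasSum_exp (t * (2 * Real.cos (Real.pi * n / L)))).mul_right
      (Real.cos (Real.pi * n / L * z))
    rw [← Real.exp_eq_exp_ℝ] at h2
    have e : (fun m : ℕ => t ^ m / (m.factorial : ℝ) *
        ((2 * Real.cos (Real.pi * n / L)) ^ m * Real.cos (Real.pi * n / L * z))) =
        fun m : ℕ => (t * (2 * Real.cos (Real.pi * n / L))) ^ m / (m.factorial : ℝ) *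
          Real.cos (Real.pi * n / L * z) := by
      funext m
      rw [mul_pow t]
      ring
    rw [e]
    exact h2
  have h3 : HasSum (fun m : ℕ => Real.exp (-2 * t) * (t ^ m / (m.factorial : ℝ) * uu L m z)) (rr L t z) := by
    have h4 := ((hasSum_sum (s := Finset.range (2 * L)) (fun n _ => h1 n)).mul_left (1 / (2 * (L : ℝ)))).mul_left
      (Real.exp (-2 * t))
    have e1 : Real.exp (-2 * t) * (1 / (2 * (L : ℝ)) * ∑ n ∈ Finset.range (2 * L),
        Real.exp (t * (2 * Real.cos (Real.pi * n / L))) * Real.cos (Real.pi * n / L * z)) = rr L t z := by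
      unfold rr ek
      rw [mul_left_comm, Finset.mul_sum]
      congr 1
      refine Finset.sum_congr rfl fun n _ => ?_
      rw [← mul_assoc, ← Real.exp_add]
      congr 2
      ring
    rw [e1] at h4
    have e2 : (fun m : ℕ => Real.exp (-2 * t) * (t ^ m / (m.factorial : ℝ) * uu L m z)) =
        fun m : ℕ => Real.exp (-2 * t) * (1 / (2 * (L : ℝ)) * ∑ n ∈ Finset.range (2 * L),
          t ^ m / (m.factorial : ℝ) *
            ((2 * Real.cos (Real.pi * n / L)) ^ m * Real.cos (Real.pi * n / L * z))) := by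
      funext m
      unfold uu
      rw [← Finset.mul_sum]
      ring
    rw [e2]
    exact h4
  refine h3.nonneg fun m => ?_
  have := uu_nonneg hL m z
  positivity

theorem ek_nonneg (x : ℝ) : 0 ≤ ek x := by
  unfold ek
  linarith [Real.cos_le_one x]

theorem rr_le_one {L : ℕ} (hL : 0 < L) {t : ℝ} (ht : 0 ≤ t) (z : ℤ) : rr L t z ≤ 1 := by
  have hL' : (0 : ℝ) < L := by exact_mod_cast hL
  have h1 : ∑ n ∈ Finset.range (2 * L),
      Real.exp (-t * ek (Real.pi * n / L)) * Real.cos (Real.pi * n / L * z) ≤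
      ∑ n ∈ Finset.range (2 * L), (1 : ℝ) := by
    refine Finset.sum_le_sum fun n _ => ?_
    have h2 : Real.exp (-t * ek (Real.pi * n / L)) ≤ 1 := by
      rw [Real.exp_le_one_iff]
      have := mul_nonneg ht (ek_nonneg (Real.pi * n / L))
      linarith
    have h3 := Real.cos_le_one (Real.pi * n / L * z)
    have h4 := Real.exp_pos (-t * ek (Real.pi * n / L))
    nlinarith
  rw [Finset.sum_const, Finset.card_range, nsmul_eq_mul, mul_one] at h1
  unfold rr
  calc (1 / (2 * (L : ℝ))) * _ ≤ (1 / (2 * (L : ℝ))) * ((2 * L : ℕ) : ℝ) :=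
        mul_le_mul_of_nonneg_left h1 (by positivity)
    _ = 1 := by
        push_cast
        field_simp

/-- exchange of the sums -/
theorem sum_rr {L : ℕ} (t : ℝ) (w : ℤ → ℝ) :
    ∑ z ∈ Finset.Ico (-(L : ℤ)) L, rr L t z * w z =
      (1 / (2 * (L : ℝ))) * ∑ n ∈ Finset.range (2 * L), Real.exp (-t * ek (Real.pi * n / L)) *
        ∑ z ∈ Finset.Ico (-(L : ℤ)) L, Real.cos (Real.pi * n / L * z) * w z := by
  unfold rr
  simp_rw [mul_assoc, ← Finset.mul_sum, Finset.sum_mul]
  rw [Finset.sum_comm]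
  congr 1
  refine Finset.sum_congr rfl fun n _ => ?_
  rw [Finset.mul_sum]
  refine Finset.sum_congr rfl fun z _ => ?_
  ring

theorem mass {L : ℕ} (hL : 2 ≤ L) (t : ℝ) : ∑ z ∈ Finset.Ico (-(L : ℤ)) L, rr L t z = 1 := by
  have hL0 : 0 < L := by omega
  have hL' : (L : ℝ) ≠ 0 := by positivity
  have h1 := sum_rr (L := L) t (fun _ => 1)
  simp only [mul_one] at h1
  rw [h1, Finset.sum_eq_single 0]
  · have h2 := sumIcoCos hL0 0
    rw [if_pos (dvd_zero _)] at h2
    have h3 : ∑ z ∈ Finset.Ico (-(L : ℤ)) L, Real.cos (Real.pi * ((0 : ℕ) : ℝ) / L * z) = 2 * (L : ℝ) := by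
      rw [← h2]
      refine Finset.sum_congr rfl fun z _ => ?_
      simp
    rw [h3]
    have h4 : ek (Real.pi * ((0 : ℕ) : ℝ) / L) = 0 := by
      unfold ek
      simp
    rw [h4, mul_zero, Real.exp_zero]
    field_simp
  · intro n hn hn0
    rw [Finset.mem_range] at hn
    have h2 := sumIcoCos hL0 (n : ℤ)
    rw [if_neg] at h2
    · have h3 : ∑ z ∈ Finset.Ico (-(L : ℤ)) L, Real.cos (Real.pi * (n : ℝ) / L * z) = 0 := by
        rw [← h2]
        refine Finset.sum_congr rfl fun z _ => ?_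
        push_cast
        rfl
      rw [h3, mul_zero]
    · rintro ⟨m, hm⟩
      have hm1 : 1 ≤ m := by
        by_contra hc
        have : m ≤ 0 := by omega
        nlinarith [hm, (by omega : (0 : ℤ) < n), (by omega : (0 : ℤ) < L)]
      nlinarith [hm, (by omega : (n : ℤ) < 2 * L), (by omega : (0 : ℤ) < L)]
  · intro h
    exact absurd (Finset.mem_range.2 (by omega)) h

theorem inner {L : ℕ} (hL : 2 ≤ L) (n : ℕ) (hn : n < 2 * L) :
    ∑ z ∈ Finset.Ico (-(L : ℤ)) L, Real.cos (Real.pi * n / L * z) * Real.cos (Real.pi / L * z) =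
      (if n = 1 then (L : ℝ) else 0) + (if n = 2 * L - 1 then (L : ℝ) else 0) := by
  have hL0 : 0 < L := by omega
  have h1 : ∀ z : ℤ, Real.cos (Real.pi * n / L * z) * Real.cos (Real.pi / L * z) =
      (1 / 2) * Real.cos (Real.pi * ((((n : ℤ) - 1 : ℤ)) : ℝ) / L * z) +
      (1 / 2) * Real.cos (Real.pi * ((((n : ℤ) + 1 : ℤ)) : ℝ) / L * z) := by
    intro z
    have e1 : Real.pi * ((((n : ℤ) - 1 : ℤ)) : ℝ) / L * z =
        Real.pi * n / L * z - Real.pi / L * z := by
      push_cast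
      ring
    have e2 : Real.pi * ((((n : ℤ) + 1 : ℤ)) : ℝ) / L * z =
        Real.pi * n / L * z + Real.pi / L * z := by
      push_cast
      ring
    rw [e1, e2, Real.cos_add, Real.cos_sub]
    ring
  rw [Finset.sum_congr rfl (fun z _ => h1 z), Finset.sum_add_distrib, ← Finset.mul_sum,
    ← Finset.mul_sum, sumIcoCos hL0, sumIcoCos hL0]
  have hd1 : (2 * (L : ℤ)) ∣ ((n : ℤ) - 1) ↔ n = 1 := by
    constructor
    · rintro ⟨m, hm⟩
      have hm1 : m < 1 := by
        by_contra hc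
        nlinarith [(by omega : (1 : ℤ) ≤ m), (by omega : (0 : ℤ) < L), (by omega : (n : ℤ) < 2 * L)]
      have hm0 : -1 < m := by
        by_contra hc
        nlinarith [(by omega : m ≤ (-1 : ℤ)), (by omega : (2 : ℤ) ≤ L), (by omega : (0 : ℤ) ≤ n)]
      have hm2 : m = 0 := by omega
      subst hm2
      omega
    · rintro rfl
      simp
  have hd2 : (2 * (L : ℤ)) ∣ ((n : ℤ) + 1) ↔ n = 2 * L - 1 := by
    constructor
    · rintro ⟨m, hm⟩
      have hm1 : m < 2 := by
        by_contra hc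
        nlinarith [(by omega : (2 : ℤ) ≤ m), (by omega : (2 : ℤ) ≤ L), (by omega : (n : ℤ) < 2 * L)]
      have hm0 : 0 < m := by
        by_contra hc
        nlinarith [(by omega : m ≤ (0 : ℤ)), (by omega : (2 : ℤ) ≤ L), (by omega : (0 : ℤ) ≤ n)]
      have hm2 : m = 1 := by omega
      subst hm2
      omega
    · intro h
      refine ⟨1, ?_⟩
      omega
  simp only [hd1, hd2]
  split_ifs <;> ring

theorem cosmom {L : ℕ} (hL : 2 ≤ L) (t : ℝ) :
    ∑ z ∈ Finset.Ico (-(L : ℤ)) L, rr L t z * Real.cos (Real.pi / L * z) =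
      Real.exp (-t * ek (Real.pi / L)) := by
  have hL0 : 0 < L := by omega
  have hL' : (L : ℝ) ≠ 0 := by positivity
  rw [sum_rr (L := L) t (fun z => Real.cos (Real.pi / L * z))]
  have h1 : ∀ n ∈ Finset.range (2 * L), Real.exp (-t * ek (Real.pi * n / L)) *
      ∑ z ∈ Finset.Ico (-(L : ℤ)) L, Real.cos (Real.pi * n / L * z) * Real.cos (Real.pi / L * z) =
      (if n = 1 then L * Real.exp (-t * ek (Real.pi / L)) else 0) +
      (if n = 2 * L - 1 then L * Real.exp (-t * ek (Real.pi / L)) else 0) := by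
    intro n hn
    rw [inner hL n (Finset.mem_range.1 hn), mul_add]
    congr 1
    · split_ifs with h
      · subst h
        rw [Nat.cast_one, mul_one]
        ring
      · rw [mul_zero]
    · split_ifs with h
      · subst h
        have e : ek (Real.pi * ((2 * L - 1 : ℕ) : ℝ) / L) = ek (Real.pi / L) := by
          unfold ek
          have e2 : Real.pi * ((2 * L - 1 : ℕ) : ℝ) / L = 2 * Real.pi - Real.pi / L := by
            rw [Nat.cast_sub (by omega)]
            push_cast
            field_simp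
          rw [e2, Real.cos_two_pi_sub]
        rw [e]
        ring
      · rw [mul_zero]
  rw [Finset.sum_congr rfl h1, Finset.sum_add_distrib, Finset.sum_ite_eq', Finset.sum_ite_eq',
    if_pos (Finset.mem_range.2 (by omega)), if_pos (Finset.mem_range.2 (by omega))]
  field_simp
  ring

theorem tp : S_P := by
  intro L hL t ht
  have hL0 : 0 < L := by omega
  have hLr : (0 : ℝ) < L := by exact_mod_cast hL0
  refine ⟨fun z => ⟨rr_nonneg hL0 ht z, rr_le_one hL0 ht z⟩, mass hL t, ?_⟩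
  have h1 : ∀ z ∈ Finset.Ico (-(L : ℤ)) L, (z : ℝ) ^ 2 * rr L t z ≤
      (L : ℝ) ^ 2 / 4 * (2 * rr L t z - 2 * (rr L t z * Real.cos (Real.pi / L * z))) := by
    intro z hz
    rw [Finset.mem_Ico] at hz
    have hz1 : |(z : ℝ)| ≤ L := by
      rw [abs_le]
      constructor
      · have := hz.1
        exact_mod_cast this
      · have := hz.2.le
        exact_mod_cast this
    have hz2 : |Real.pi / L * z| ≤ Real.pi := by
      rw [abs_mul, abs_of_pos (div_pos Real.pi_pos hLr), div_mul_eq_mul_div, div_le_iff₀ hLr]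
      exact mul_le_mul_of_nonneg_left hz1 Real.pi_pos.le
    have h2 := Real.cos_le_one_sub_mul_cos_sq hz2
    have h3 : 2 / Real.pi ^ 2 * (Real.pi / L * z) ^ 2 = 2 * (z : ℝ) ^ 2 / (L : ℝ) ^ 2 := by
      have := Real.pi_ne_zero
      field_simp
    rw [h3] at h2
    have h4 := rr_nonneg hL0 ht z
    have h5 : (z : ℝ) ^ 2 ≤ (L : ℝ) ^ 2 / 4 * (2 - 2 * Real.cos (Real.pi / L * z)) := by
      have h6 : 2 * (z : ℝ) ^ 2 / (L : ℝ) ^ 2 ≤ 1 - Real.cos (Real.pi / L * z) := by linarith
      rw [div_le_iff₀ (by positivity)] at h6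
      linarith
    calc (z : ℝ) ^ 2 * rr L t z ≤
        ((L : ℝ) ^ 2 / 4 * (2 - 2 * Real.cos (Real.pi / L * z))) * rr L t z :=
          mul_le_mul_of_nonneg_right h5 h4
      _ = _ := by ring
  have h2 := Finset.sum_le_sum h1
  rw [← Finset.mul_sum, Finset.sum_sub_distrib, ← Finset.mul_sum, ← Finset.mul_sum, mass hL t,
    cosmom hL t] at h2
  refine h2.trans ?_
  have h3 : 1 - t * ek (Real.pi / L) ≤ Real.exp (-t * ek (Real.pi / L)) := by
    have := Real.add_one_le_exp (-t * ek (Real.pi / L))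
    linarith
  have h4 : ek (Real.pi / L) ≤ (Real.pi / L) ^ 2 := by
    unfold ek
    have := Real.one_sub_sq_div_two_le_cos (x := Real.pi / L)
    linarith
  have h5 : t * ek (Real.pi / L) ≤ t * (Real.pi / L) ^ 2 := mul_le_mul_of_nonneg_left h4 ht
  have h6 : (L : ℝ) ^ 2 / 4 * (2 * 1 - 2 * Real.exp (-t * ek (Real.pi / L))) ≤
      (L : ℝ) ^ 2 / 4 * (2 * (t * (Real.pi / L) ^ 2)) := by
    apply mul_le_mul_of_nonneg_left _ (by positivity)
    linarith
  refine h6.trans ?_
  have h7 : (L : ℝ) ^ 2 / 4 * (2 * (t * (Real.pi / L) ^ 2)) = t * (Real.pi ^ 2 / 2) := by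
    field_simp
    ring
  rw [h7]
  have h8 : Real.pi ^ 2 / 2 ≤ 5 := by
    have := Real.pi_lt_d2
    nlinarith [Real.pi_pos]
  nlinarith

end Pool.Agent.H161.AF
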